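import Pool.Agent.Helper4.HZ.Goals

/-!
# HZ packet DAT: the data of the order
-/

namespace Pool.Agent.Helper64.HZ

open Pool.Agent.Helper23.Hurwitz
open Pool.Agent.Helper4.HZ

/-- A normal subgroup between the kernel of an epimorphism to a simple group and the whole group. -/
lemma eq_ker_of_simple {A T : Type} [Group A] [Group T] [IsSimpleGroup T] (f : A →* T)
    (hf : Function.Surjective f) (R : Subgroup A) [R.Normal] (hR : f.ker ≤ R) (hne : R ≠ ⊤) :
    R = f.ker := by
  have hN : (R.map f).Normal := Subgroup.Normal.map inferInstance f hf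
  rcases hN.eq_bot_or_eq_top with h | h
  · apply le_antisymm _ hR
    rwa [Subgroup.map_eq_bot_iff] at h
  · exfalso
    apply hne
    have h2 : (R.map f).comap f = ⊤ := by rw [h, Subgroup.comap_top]
    rw [Subgroup.comap_map_eq, sup_eq_left.mpr hR] at h2
    exact h2

lemma card_quot_ker {A T : Type} [Group A] [Group T] (f : A →* T)
    (hf : Function.Surjective f) : Nat.card (A ⧸ f.ker) = Nat.card T :=
  Nat.card_congr (QuotientGroup.quotientKerEquivOfSurjective f hf).toEquiv

/-- The index of `K n` in a descending series. -/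
lemma index_series {G : Type} [Group G] (r : ℕ) (K : ℕ → Subgroup G) (hK : IsChiefSeries r K) :
    ∀ n ≤ r, (K n).index = ∏ j ∈ Finset.range n, (K (j + 1)).relIndex (K j) := by
  intro n
  induction n with
  | zero => intro _; simp [hK.top]
  | succ n ih =>
    intro hn
    rw [Finset.prod_range_succ, ← ih (by omega), mul_comm,
      Subgroup.relIndex_mul_index (hK.chief n (by omega)).lt.le]

/-- The number of a chief factor. -/
def Alt {G : Type} [Group G] (K L : Subgroup G) (b : Bool) (t k : ℕ) : Prop :=
  1 ≤ k ∧ L.relIndex K = t ^ k ∧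
    (b = false → t.Prime ∧ (∀ a ∈ K, a ^ t ∈ L) ∧ (∀ a ∈ K, ∀ b ∈ K, a * b * a⁻¹ * b⁻¹ ∈ L)) ∧
    (b = true → ∃ (R : Subgroup K) (_ : R.Normal), L.subgroupOf K ≤ R ∧ NS (K ⧸ R) ∧
      Nat.card (K ⧸ R) = t ∧ (k = 1 → R = L.subgroupOf K))

lemma exists_alt (hCHF : S_CHF) {G : Type} [Group G] [Finite G] (K L : Subgroup G)
    (h : IsChief K L) : ∃ (b : Bool) (t k : ℕ), Alt K L b t k := by
  rcases hCHF G K L h with ⟨q, k, hq, hk, hi, h1, h2⟩ | ⟨R, hR, k, hL, hNS, hk, hi, h1⟩
  · refine ⟨false, q, k, hk, hi, fun _ => ⟨hq, h1, h2⟩, fun hb => ?_⟩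
    exact absurd hb (by simp)
  · refine ⟨true, Nat.card (K ⧸ R), k, hk, hi, fun hb => ?_, fun _ => ?_⟩
    · exact absurd hb (by simp)
    · exact ⟨R, hR, hL, hNS, rfl, h1⟩

lemma prime_dvd_prod_pow {S : Finset ℕ} {f : ℕ → ℕ} {p : ℕ} (hp : p.Prime)
    (hS : ∀ q ∈ S, q.Prime) (h : p ∣ ∏ q ∈ S, q ^ f q) : p ∈ S := by
  obtain ⟨q, hq, hd⟩ := (hp.prime.dvd_finset_prod_iff _).1 h
  have h2 : p ∣ q := hp.dvd_of_dvd_pow hd
  have h3 : p = q := (Nat.prime_dvd_prime_iff_eq hp (hS q hq)).1 h2
  rw [h3]; exact hq

/-- Arithmetic: splitting `e`. -/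
lemma split_e (a e : ℕ) (he : e ≠ 0)
    (h6 : ∀ p : ℕ, p.Prime → ¬ p ∣ 7 * a → p ∣ e → p ^ 6 ∣ a * e) :
    ∃ b c : ℕ, e = b * c ∧ (∀ p : ℕ, p.Prime → p ∣ b → p ∣ 7 * a) ∧
      (∀ p : ℕ, p.Prime → p ∣ c → p ^ 6 ∣ c) := by
  classical
  set S1 := e.primeFactors.filter (fun p => p ∣ 7 * a) with hS1
  set S2 := e.primeFactors.filter (fun p => ¬ p ∣ 7 * a) with hS2
  have hp1 : ∀ q ∈ S1, q.Prime := fun q hq =>
    Nat.prime_of_mem_primeFactors (Finset.mem_filter.1 hq).1
  have hp2 : ∀ q ∈ S2, q.Prime := fun q hq =>
    Nat.prime_of_mem_primeFactors (Finset.mem_filter.1 hq).1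
  have hbc : e = (∏ q ∈ S1, q ^ e.factorization q) * ∏ q ∈ S2, q ^ e.factorization q := by
    rw [hS1, hS2, Finset.prod_filter_mul_prod_filter_not]
    conv_lhs => rw [← Nat.prod_factorization_pow_eq_self he]
    rfl
  refine ⟨∏ q ∈ S1, q ^ e.factorization q, ∏ q ∈ S2, q ^ e.factorization q, hbc, ?_, ?_⟩
  · intro p hp hd
    exact (Finset.mem_filter.1 (prime_dvd_prod_pow hp hp1 hd)).2
  · intro p hp hd
    have hm := Finset.mem_filter.1 (prime_dvd_prod_pow hp hp2 hd)
    have hpe : p ∣ e := Nat.dvd_of_mem_primeFactors hm.1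
    have h1 := h6 p hp hm.2 hpe
    have hpa : ¬ p ∣ a := fun h => hm.2 (dvd_mul_of_dvd_right h 7)
    have hca : Nat.Coprime (p ^ 6) a := Nat.Coprime.pow_left 6 ((Nat.Prime.coprime_iff_not_dvd hp).2 hpa)
    have h2 : p ^ 6 ∣ e := hca.dvd_of_dvd_mul_left h1
    rw [hbc] at h2
    have hpb : ¬ p ∣ ∏ q ∈ S1, q ^ e.factorization q := fun h =>
      hm.2 (Finset.mem_filter.1 (prime_dvd_prod_pow hp hp1 h)).2
    have hcb : Nat.Coprime (p ^ 6) (∏ q ∈ S1, q ^ e.factorization q) :=
      Nat.Coprime.pow_left 6 ((Nat.Prime.coprime_iff_not_dvd hp).2 hpb)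
    exact hcb.dvd_of_dvd_mul_left h2

theorem DAT_holds (hCLA : S_CLA) (hPSM : S_PSM) (hCHF : S_CHF) (hSER : S_SER) (hCMB : S_CMB) :
    S_DAT := by
  intro X G _ _ z i α hPerf hz7 hzgen hαz hi hNF
  obtain ⟨r, K, hK⟩ := hSER G
  have hex : ∀ j : ℕ, ∃ (b : Bool) (t k : ℕ), j < r → Alt (K j) (K (j + 1)) b t k := by
    intro j
    by_cases hj : j < r
    · obtain ⟨b, t, k, h⟩ := exists_alt hCHF (K j) (K (j + 1)) (hK.chief j hj)
      exact ⟨b, t, k, fun _ => h⟩
    · exact ⟨false, 0, 0, fun h => absurd h hj⟩
  choose b t k hbtk using hex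
  set J := (Finset.range r).filter (fun j => b j = true) with hJ
  set J' := (Finset.range r).filter (fun j => ¬ b j = true) with hJ'
  have hcard : Nat.card G = ∏ j ∈ Finset.range r, t j ^ k j := by
    have h1 := index_series r K hK r le_rfl
    rw [hK.bot, Subgroup.index_bot] at h1
    rw [h1]
    apply Finset.prod_congr rfl
    intro j hj
    exact (hbtk j (Finset.mem_range.1 hj)).2.1
  set a := ∏ j ∈ J, t j ^ k j with ha
  set e := ∏ j ∈ J', t j ^ k j with he
  have hae : Nat.card G = a * e := by
    rw [hcard, ha, he, hJ, hJ', Finset.prod_filter_mul_prod_filter_not]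
  have hG0 : Nat.card G ≠ 0 := Nat.card_pos.ne'
  have he0 : e ≠ 0 := by
    intro h; apply hG0; rw [hae, h, mul_zero]
  -- part 1
  have hpart1 : a ∈ Submonoid.closure (atoms X) := by
    apply hCMB (Submonoid.closure (atoms X)) J t k
    · intro j hj
      exact (hbtk j (Finset.mem_range.1 (Finset.mem_filter.1 hj).1)).1
    · intro j hj
      have hjr : j < r := Finset.mem_range.1 (Finset.mem_filter.1 hj).1
      have hbj : b j = true := (Finset.mem_filter.1 hj).2
      obtain ⟨hk1, hrel, -, h2⟩ := hbtk j hjr
      obtain ⟨R, hRn, hLR, hNS, hcardR, hk⟩ := h2 hbj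
      haveI := hRn
      have hKjn : (K j).Normal := (hK.chief j hjr).nK
      have hX := hNF (K j) R hKjn.isSubnormal hNS
      by_cases hP : IsPSL2 (K j ⧸ R)
      · obtain ⟨p, hp, ⟨φ⟩⟩ := hP
        haveI : Fact p.Prime := ⟨hp⟩
        have htw : t j = w p := by
          rw [← hcardR]; exact Nat.card_congr φ.toEquiv
        by_cases hp7 : p ≤ 7
        · left
          apply Submonoid.subset_closure
          left; right
          exact ⟨p, hp, hp7, htw⟩
        · push Not at hp7
          right
          refine ⟨?_, ?_, ?_⟩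
          · apply Submonoid.subset_closure
            right
            exact ⟨p, hp, hp7, Or.inl (by rw [htw])⟩
          · apply Submonoid.subset_closure
            right
            exact ⟨p, hp, hp7, Or.inr (by rw [htw])⟩
          · by_cases hk2 : 2 ≤ k j
            · exact Or.inl hk2
            · right
              have hk1' : k j = 1 := by omega
              have hR := hk hk1'
              haveI : IsSimpleGroup (K j ⧸ R) := hNS.1
              haveI hsP : IsSimpleGroup (PSL2 p) := φ.symm.isSimpleGroup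
              have hFI : FacIso (K j) (K (j + 1)) (PSL2 p) := by
                refine ⟨φ.toMonoidHom.comp (QuotientGroup.mk' R), ?_, ?_⟩
                · exact φ.surjective.comp (QuotientGroup.mk'_surjective R)
                · intro x
                  rw [MonoidHom.comp_apply]
                  have h3 : φ.toMonoidHom ((QuotientGroup.mk' R) x) = 1 ↔
                      (QuotientGroup.mk' R) x = 1 := by
                    exact φ.map_eq_one_iff
                  rw [h3, QuotientGroup.mk'_apply, QuotientGroup.eq_one_iff, hR,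
                    Subgroup.mem_subgroupOf]
              obtain ⟨j', hj'r, hj'ne, f, hfs, hfk⟩ := hPSM G p z i α r K hPerf hz7 hzgen hαz hi hp7
                hK j hjr hFI
              obtain ⟨hk1'', hrel', hfirst, hsecond⟩ := hbtk j' hj'r
              have hbj' : b j' = true := by
                by_contra hb
                have hb' : b j' = false := by simpa using hb
                obtain ⟨-, -, hcomm⟩ := hfirst hb'
                obtain ⟨u, v, huv⟩ := hNS.2
                apply huv
                obtain ⟨x, hx⟩ := hfs (φ u)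
                obtain ⟨y, hy⟩ := hfs (φ v)
                have h4 : f (x * y * x⁻¹ * y⁻¹) = 1 := by
                  rw [hfk]
                  exact hcomm x x.2 y y.2
                rw [map_mul, map_mul, map_mul, map_inv, map_inv, hx, hy] at h4
                have h5 : φ u * φ v = φ v * φ u := by
                  have h6 := congrArg (fun s => s * φ v * φ u) h4
                  simpa [mul_assoc] using h6
                rw [← map_mul, ← map_mul] at h5
                exact φ.injective h5
              obtain ⟨R', hR'n, hLR', hNS', hcardR', -⟩ := hsecond hbj'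
              haveI := hR'n
              refine ⟨j', ?_, hj'ne, ?_⟩
              · rw [hJ, Finset.mem_filter]
                exact ⟨Finset.mem_range.2 hj'r, hbj'⟩
              · have hker : f.ker = (K (j' + 1)).subgroupOf (K j') := by
                  ext x
                  rw [MonoidHom.mem_ker, hfk, Subgroup.mem_subgroupOf]
                have hR'top : R' ≠ ⊤ := by
                  intro h
                  haveI := hNS'.1
                  haveI : Nontrivial (K j' ⧸ R') := inferInstance
                  have h7 : Subsingleton (K j' ⧸ R') := by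
                    rw [h]; exact QuotientGroup.subsingleton_quotient_top
                  exact not_subsingleton (K j' ⧸ R') h7
                have hR'k : R' = f.ker := eq_ker_of_simple f hfs R' (by rw [hker]; exact hLR') hR'top
                have h8 : Nat.card (K j' ⧸ R') = Nat.card (PSL2 p) := by
                  have h9 : Nat.card (K j' ⧸ R') = Nat.card (K j' ⧸ f.ker) := by
                    rw [← Subgroup.index_eq_card, ← Subgroup.index_eq_card, hR'k]
                  rw [h9, card_quot_ker f hfs]
                rw [← hcardR', h8, htw]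
                rfl
      · left
        apply Submonoid.subset_closure
        left; left
        refine ⟨K j ⧸ R, inferInstance, inferInstance, hNS, ?_, hP, hcardR⟩
        rcases hX with h | h
        · exact h
        · exact absurd h hP
  -- part 2
  have h6 : ∀ p : ℕ, p.Prime → ¬ p ∣ 7 * a → p ∣ e → p ^ 6 ∣ a * e := by
    intro p hp hp7 hpe
    haveI : Fact p.Prime := ⟨hp⟩
    have hpG : p ∣ (K r).index := by
      rw [hK.bot, Subgroup.index_bot, hae]; exact dvd_mul_of_dvd_right hpe a
    classical
    have hexm : ∃ m, p ∣ (K m).index := ⟨r, hpG⟩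
    have hm := Nat.find_spec hexm
    have hmr : Nat.find hexm ≤ r := Nat.find_min' hexm hpG
    have hm0 : Nat.find hexm ≠ 0 := by
      intro h0
      rw [h0, hK.top, Subgroup.index_top] at hm
      exact hp.one_lt.ne' (Nat.dvd_one.1 hm)
    obtain ⟨j, hj⟩ := Nat.exists_eq_succ_of_ne_zero hm0
    have hj' : Nat.find hexm = j + 1 := hj
    have hjr : j < r := by omega
    have hnd : ¬ p ∣ (K j).index := Nat.find_min hexm (by omega)
    rw [hj'] at hm
    have hch := hK.chief j hjr
    rw [← Subgroup.relIndex_mul_index hch.lt.le] at hm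
    have hprel : p ∣ (K (j + 1)).relIndex (K j) := by
      rcases (Nat.Prime.dvd_mul hp).1 hm with h | h
      · exact h
      · exact absurd h hnd
    obtain ⟨hk1, hrel, hfirst, -⟩ := hbtk j hjr
    have hbj : b j = false := by
      by_contra hb
      have hb' : b j = true := by simpa using hb
      apply hp7
      apply dvd_mul_of_dvd_right
      rw [hrel] at hprel
      refine dvd_trans hprel ?_
      rw [ha]
      apply Finset.dvd_prod_of_mem (fun j => t j ^ k j)
      rw [hJ, Finset.mem_filter]
      exact ⟨Finset.mem_range.2 hjr, hb'⟩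
    obtain ⟨htp, hpow, hcomm⟩ := hfirst hbj
    have hpt : p = t j := by
      rw [hrel] at hprel
      exact (Nat.prime_dvd_prime_iff_eq hp htp).1 (hp.dvd_of_dvd_pow hprel)
    rw [← hae]
    apply hCLA G p (K j) (K (j + 1)) z i α hPerf hz7 hzgen hαz hi
    · intro h; apply hp7; rw [h]; exact dvd_mul_right 7 a
    · exact hch.nK
    · exact hch.nL
    · exact hch.lt.le
    · exact hch.lt.ne'
    · exact hnd
    · rw [hpt]; exact hpow
    · exact hcomm
  obtain ⟨b', c', hbc, h1, h2⟩ := split_e a e he0 h6
  refine ⟨a, hpart1, b', c', ?_, h1, h2⟩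
  rw [hae, hbc, mul_assoc]

end Pool.Agent.Helper64.HZ
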